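import Mathlib

set_option autoImplicit false

namespace Pool.Agent.Results.MP_544047_al.Terminates

/-- The free group on two letters. -/
abbrev F2 := FreeGroup (Fin 2)

/-- The four generators and inverses. -/
def Xi : Set F2 := {h | ∃ i : Fin 2, h = FreeGroup.of i ∨ h = (FreeGroup.of i)⁻¹}

/-- Endpoints of the edges leaving a set of cosets. -/
def nb (H : Subgroup F2) (S : Set (F2 ⧸ H)) : Set (F2 ⧸ H) := {z | ∃ h ∈ Xi, ∃ x ∈ S, z = h • x}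

/-- The sets `C i` of the procedure. -/
def C (H : Subgroup F2) (y : F2) : ℕ → Set (F2 ⧸ H)
  | 0 => {(y : F2 ⧸ H)}
  | 1 => nb H {(y : F2 ⧸ H)}
  | (i + 2) => nb H (C H y (i + 1)) \ C H y i

def W (H : Subgroup F2) (y : F2) : ℕ → Set (F2 ⧸ H)
  | 0 => ∅
  | 1 => ∅
  | 2 => {(y : F2 ⧸ H)}
  | (i + 3) => nb H (W H y (i + 2))

lemma inv_mem {h : F2} (hh : h ∈ Xi) : h⁻¹ ∈ Xi := by
  obtain ⟨i, rfl | rfl⟩ := hh
  · exact ⟨i, Or.inr rfl⟩
  · exact ⟨i, Or.inl (inv_inv _)⟩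

lemma nb_mono {H : Subgroup F2} {S T : Set (F2 ⧸ H)} (h : S ⊆ T) : nb H S ⊆ nb H T := by
  rintro z ⟨g, hg, x, hx, rfl⟩
  exact ⟨g, hg, x, h hx, rfl⟩

lemma nb_W (H : Subgroup F2) (y : F2) (i : ℕ) : nb H (W H y i) ⊆ W H y (i + 1) := by
  match i with
  | 0 => rintro z ⟨g, hg, x, hx, rfl⟩; exact hx.elim
  | 1 => rintro z ⟨g, hg, x, hx, rfl⟩; exact hx.elim
  | (i + 2) => exact subset_rfl

lemma W_mono (H : Subgroup F2) (y : F2) (i : ℕ) : W H y i ⊆ W H y (i + 2) := by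
  intro z hz
  apply nb_W
  refine ⟨_, inv_mem ⟨0, Or.inl rfl⟩, FreeGroup.of 0 • z, nb_W H y i ⟨_, ⟨0, Or.inl rfl⟩, z, hz, rfl⟩,
    by simp⟩

lemma C_eq (H : Subgroup F2) (y : F2) : ∀ i, C H y i = W H y (i + 2) \ W H y i
  | 0 => by simp [C, W]
  | 1 => by simp [C, W]
  | (i + 2) => by
    rw [C, C_eq H y (i + 1), C_eq H y i]
    ext z
    constructor
    · rintro ⟨⟨g, hg, x, ⟨hx, hx'⟩, rfl⟩, h2⟩
      refine ⟨⟨g, hg, x, hx, rfl⟩, fun h3 => hx' ?_⟩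
      have h4 : g • x ∈ W H y i := by
        by_contra h5; exact h2 ⟨h3, h5⟩
      exact nb_W H y i ⟨_, inv_mem hg, _, h4, by simp⟩
    · rintro ⟨⟨g, hg, x, hx, rfl⟩, h2⟩
      exact ⟨⟨g, hg, x, ⟨hx, fun h3 => h2 (nb_W H y _ ⟨g, hg, x, h3, rfl⟩)⟩, rfl⟩, fun h3 => h2 h3.1⟩

theorem result (H : Subgroup F2) [H.FiniteIndex] (y : F2) : ∃ i, 1 ≤ i ∧ C H y i = ∅ := by
  by_contra h
  push Not at h
  have hs : StrictMono (fun j : ℕ => W H y (2 * j + 1)) := by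
    refine strictMono_nat_of_lt_succ fun j => ?_
    obtain ⟨z, hz⟩ := h (2 * j + 1) (by omega)
    rw [C_eq] at hz
    exact lt_of_le_of_ne (W_mono H y _) fun e => hz.2 (by
      have e' : W H y (2 * j + 1) = W H y (2 * j + 1 + 2) := e
      rw [e']; exact hz.1)
  have : Finite (F2 ⧸ H) := Subgroup.finite_quotient_of_finiteIndex
  exact not_injective_infinite_finite _ hs.injective

end Pool.Agent.Results.MP_544047_al.Terminates
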